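import Pool.Agent.W_MP_23c0ba_an.Main

/-!
# Unique continuation for Dirac operators with `Lⁿ` potentials
-/

set_option autoImplicit false

open MeasureTheory
open scoped ENNReal ContDiff Matrix

namespace Pool.Agent.Results.MP_23c0ba_an.DiracUniqueContinuation

/-- `f` is locally in `L^q` on `Ω`: it is in `L^q(K)` for every compact `K ⊆ Ω`. -/
def LocLp {n : ℕ} {F : Type} [NormedAddCommGroup F] (q : ℝ≥0∞)
    (Ω : Set (EuclideanSpace ℝ (Fin n))) (f : EuclideanSpace ℝ (Fin n) → F) : Prop :=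
  ∀ K : Set (EuclideanSpace ℝ (Fin n)), IsCompact K → K ⊆ Ω → MemLp f q (volume.restrict K)

/-- The matrices of a Dirac operator: `αⱼ* = -αⱼ` and `αⱼ αₖ + αₖ αⱼ = -2 δⱼₖ I`. -/
def IsDiracSystem {n m : ℕ} (α : Fin n → Matrix (Fin m) (Fin m) ℂ) : Prop :=
  (∀ j, (α j)ᴴ = -α j) ∧
    ∀ j k, α j * α k + α k * α j = if j = k then (-2 : ℂ) • (1 : Matrix (Fin m) (Fin m) ℂ) else 0

/-- `g` is the distributional derivative `D u = ∑ⱼ αⱼ ∂ⱼ u` on `Ω`. -/
def IsDistribD {n m : ℕ} (α : Fin n → Matrix (Fin m) (Fin m) ℂ)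
    (Ω : Set (EuclideanSpace ℝ (Fin n))) (u g : EuclideanSpace ℝ (Fin n) → Fin m → ℂ) : Prop :=
  ∀ η : EuclideanSpace ℝ (Fin n) → ℝ, ContDiff ℝ ∞ η → HasCompactSupport η → tsupport η ⊆ Ω →
    ∫ x, η x • g x =
      - ∫ x, ∑ j, (fderiv ℝ η x (EuclideanSpace.single j (1 : ℝ))) • (α j *ᵥ u x)

/-- `u` is a solution of `(D + V) u = 0` on `Ω`: `u` and its distributional derivative `D u` are
locally square integrable and `D u + V u = 0` almost everywhere. -/
def IsSolution {n m : ℕ} (α : Fin n → Matrix (Fin m) (Fin m) ℂ)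
    (Ω : Set (EuclideanSpace ℝ (Fin n)))
    (V : EuclideanSpace ℝ (Fin n) → Matrix (Fin m) (Fin m) ℂ)
    (u : EuclideanSpace ℝ (Fin n) → Fin m → ℂ) : Prop :=
  LocLp 2 Ω u ∧ ∃ g : EuclideanSpace ℝ (Fin n) → Fin m → ℂ, LocLp 2 Ω g ∧
    IsDistribD α Ω u g ∧ ∀ᵐ x ∂(volume.restrict Ω), g x + V x *ᵥ u x = 0

/-- The unique continuation property of `D + V` on `Ω`. -/
def HasUCP {n m : ℕ} (α : Fin n → Matrix (Fin m) (Fin m) ℂ)
    (Ω : Set (EuclideanSpace ℝ (Fin n)))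
    (V : EuclideanSpace ℝ (Fin n) → Matrix (Fin m) (Fin m) ℂ) : Prop :=
  ∀ u : EuclideanSpace ℝ (Fin n) → Fin m → ℂ, IsSolution α Ω V u →
    (∃ U : Set (EuclideanSpace ℝ (Fin n)), IsOpen U ∧ U.Nonempty ∧ U ⊆ Ω ∧
      ∀ᵐ x ∂(volume.restrict U), u x = 0) →
    ∀ᵐ x ∂(volume.restrict Ω), u x = 0

section aux

variable {n m : ℕ}

/-- The operators associated with the matrices. -/
noncomputable def cliff (α : Fin n → Matrix (Fin m) (Fin m) ℂ) (hα : IsDiracSystem α) :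
    DiracUCP.Cliff n (EuclideanSpace ℂ (Fin m)) where
  α j := Matrix.toEuclideanCLM (𝕜 := ℂ) (α j)
  skew j s t := by
    have h1 : ContinuousLinearMap.adjoint (Matrix.toEuclideanCLM (𝕜 := ℂ) (α j)) =
        - Matrix.toEuclideanCLM (𝕜 := ℂ) (α j) := by
      rw [← ContinuousLinearMap.star_eq_adjoint, ← map_star, Matrix.star_eq_conjTranspose,
        hα.1 j, map_neg]
    rw [← ContinuousLinearMap.adjoint_inner_right, h1]
    simp
  anti j k s := by
    have h1 := congrArg (Matrix.toEuclideanCLM (𝕜 := ℂ)) (hα.2 j k)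
    rw [map_add, map_mul, map_mul] at h1
    have h2 := DFunLike.congr_fun h1 s
    by_cases h : j = k
    · rw [if_pos h] at h2 ⊢
      rw [map_smul, map_one] at h2
      exact h2
    · rw [if_neg h] at h2 ⊢
      rw [map_zero] at h2
      exact h2

theorem cliff_apply (α : Fin n → Matrix (Fin m) (Fin m) ℂ) (hα : IsDiracSystem α) (j : Fin n)
    (s : Fin m → ℂ) :
    (cliff α hα).α j (WithLp.toLp 2 s) = WithLp.toLp 2 (α j *ᵥ s) := by
  simp [cliff]

/-- Passing to the Hermitian norm. -/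
noncomputable def toE (m : ℕ) : (Fin m → ℂ) ≃L[ℝ] EuclideanSpace ℂ (Fin m) :=
  (PiLp.continuousLinearEquiv 2 ℝ (fun _ : Fin m => ℂ)).symm

theorem toE_apply (s : Fin m → ℂ) : toE m s = WithLp.toLp 2 s := rfl

theorem memLp_toE {q : ℝ≥0∞} {μ : Measure (EuclideanSpace ℝ (Fin n))}
    {f : EuclideanSpace ℝ (Fin n) → Fin m → ℂ} (hf : MemLp f q μ) :
    MemLp (fun x => toE m (f x)) q μ :=
  ((toE m : (Fin m → ℂ) ≃L[ℝ] EuclideanSpace ℂ (Fin m)) :
    (Fin m → ℂ) →L[ℝ] EuclideanSpace ℂ (Fin m)).comp_memLp' hf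

theorem norm_mulVec_le (M : Matrix (Fin m) (Fin m) ℂ) (s : Fin m → ℂ) :
    ‖toE m (M *ᵥ s)‖ ≤ (∑ i, ∑ j, ‖M i j‖) * ‖toE m s‖ := by
  have h1 : ‖toE m (M *ᵥ s)‖ ≤ ∑ i, ‖(M *ᵥ s) i‖ := by
    rw [toE_apply, EuclideanSpace.norm_eq]
    refine Real.sqrt_le_iff.mpr ⟨by positivity, ?_⟩
    exact Finset.sum_sq_le_sq_sum_of_nonneg fun i _ => norm_nonneg _
  refine h1.trans ?_
  rw [Finset.sum_mul]
  refine Finset.sum_le_sum fun i _ => ?_
  rw [Finset.sum_mul]
  rw [show (M *ᵥ s) i = ∑ j, M i j * s j from rfl]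
  refine (norm_sum_le _ _).trans (Finset.sum_le_sum fun j _ => ?_)
  rw [norm_mul]
  gcongr
  exact PiLp.norm_apply_le (toE m s) j

end aux

/-- **Unique continuation for Dirac operators with `Lⁿ` potentials.** For all `n ≥ 2`, every
system of matrices of a Dirac operator (of any size `m`), every connected open `Ω ⊆ ℝⁿ` and every
potential `V` with entries in `Lⁿ_loc(Ω)`, the operator `D + V` has the unique continuation
property. -/
theorem result (n m : ℕ) (hn : 2 ≤ n) (α : Fin n → Matrix (Fin m) (Fin m) ℂ)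
    (hα : IsDiracSystem α) (Ω : Set (EuclideanSpace ℝ (Fin n))) (hΩ : IsOpen Ω)
    (hc : IsConnected Ω) (V : EuclideanSpace ℝ (Fin n) → Matrix (Fin m) (Fin m) ℂ)
    (hV : ∀ i j, LocLp (n : ℝ≥0∞) Ω (fun x => V x i j)) : HasUCP α Ω V := by
  rintro u ⟨hu, g, hg, hD, heq⟩ ⟨U, hU, hne, hUΩ, hz⟩
  set W : EuclideanSpace ℝ (Fin n) → ℝ := fun x => ∑ i, ∑ j, ‖V x i j‖ with hW
  have hz' : ∀ᵐ x, x ∈ U → toE m (u x) = 0 := by
    rw [ae_restrict_iff' hU.measurableSet] at hz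
    filter_upwards [hz] with x hx hxU
    rw [hx hxU, map_zero]
  have hmain := DiracUCP.ucp_ineq hn (cliff α hα) hΩ hc.isPreconnected
    (u := fun x => toE m (u x)) (g := fun x => toE m (g x)) (W := W)
    (fun K hK hKΩ => memLp_toE (hu K hK hKΩ)) (fun K hK hKΩ => memLp_toE (hg K hK hKΩ))
    ?_ (fun x => by positivity) ?_ ?_ hU hne hUΩ hz'
  · rw [ae_restrict_iff' hΩ.measurableSet]
    filter_upwards [hmain] with x hx hxΩ
    exact (map_eq_zero_iff (toE m) (toE m).injective).mp (hx hxΩ)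
  · intro η hη hηc hηs
    have h := congrArg (toE m) (hD η hη hηc hηs)
    rw [map_neg] at h
    have h1 : toE m (∫ x, η x • g x) = ∫ x, η x • toE m (g x) := by
      rw [← (toE m).integral_comp_comm]
      simp
    have h2 : toE m (∫ x, ∑ j, (fderiv ℝ η x (EuclideanSpace.single j (1 : ℝ))) • (α j *ᵥ u x)) =
        ∫ x, ∑ j, (fderiv ℝ η x (DiracUCP.bv j)) • (cliff α hα).α j (toE m (u x)) := by
      rw [← (toE m).integral_comp_comm]
      refine integral_congr_ae (ae_of_all _ fun x => ?_)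
      simp only [map_sum, map_smul]
      refine Finset.sum_congr rfl fun j _ => ?_
      rw [toE_apply, toE_apply, cliff_apply]
    rw [← h1, h, h2]
  · intro K hK hKΩ
    have h1 : ∀ i j, MemLp (fun x => ‖V x i j‖) n (volume.restrict K) :=
      fun i j => (hV i j K hK hKΩ).norm
    exact memLp_finsetSum _ fun i _ => memLp_finsetSum _ fun j _ => h1 i j
  · rw [ae_restrict_iff' hΩ.measurableSet] at heq
    filter_upwards [heq] with x hx hxΩ
    have h1 : g x = -(V x *ᵥ u x) := eq_neg_of_add_eq_zero_left (hx hxΩ)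
    rw [h1, map_neg, norm_neg]
    exact norm_mulVec_le _ _

end Pool.Agent.Results.MP_23c0ba_an.DiracUniqueContinuation
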